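import Pool.Agent.H840R3.WalkCount
import Pool.Agent.H840R3.Conn3

set_option autoImplicit false

namespace Pool.Agent.Results.MP_b9ebd9_co.TruncatedPetersen

open Finset Pool.Agent.H840R3.WalkCount Pool.Agent.H840R3.Conn3

/-- `G` is 3-connected: more than 3 vertices, and deleting at most 2 vertices leaves a
connected graph. -/
def ThreeConnected {V : Type} [Fintype V] (G : SimpleGraph V) : Prop :=
  3 < Fintype.card V ∧
    ∀ S : Finset V, S.card < 3 → (G.induce ((↑S : Set V)ᶜ)).Connected

/-- A cycle cover: a finite family (list) of cycles of `G`, repetitions allowed, such that every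
edge lies in one of them. -/
def IsCycleCover {V : Type} (G : SimpleGraph V) (F : List (Σ u : V, G.Walk u u)) : Prop :=
  (∀ C ∈ F, C.2.IsCycle) ∧ ∀ e ∈ G.edgeSet, ∃ C ∈ F, e ∈ C.2.edges

/-- The lengths of the cycle covers of `G`. -/
def coverLengths {V : Type} (G : SimpleGraph V) : Set ℕ :=
  {n | ∃ F : List (Σ u : V, G.Walk u u), IsCycleCover G F ∧ (F.map (fun C => C.2.length)).sum = n}

/-- The lengths of the postman tours of `G`: closed walks using every edge at least once. -/
def tourLengths {V : Type} (G : SimpleGraph V) : Set ℕ :=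
  {n | ∃ (u : V) (p : G.Walk u u), (∀ e ∈ G.edgeSet, e ∈ p.edges) ∧ p.length = n}

/-- `SCC(G)`: the length of a shortest cycle cover. -/
noncomputable def SCC {V : Type} (G : SimpleGraph V) : ℕ := sInf (coverLengths G)

/-- `CPP(G)`: the length of a shortest postman tour. -/
noncomputable def CPP {V : Type} (G : SimpleGraph V) : ℕ := sInf (tourLengths G)

open Classical in
/-- The total weight of the edge cut between `S` and its complement. -/
noncomputable def cutWeight {V : Type} [Fintype V] (G : SimpleGraph V) (w : Sym2 V → ℕ)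
    (S : Finset V) : ℕ :=
  ∑ a ∈ S, ∑ b ∈ Sᶜ, if G.Adj a b then w s(a, b) else 0

/-- `w` restricted to the edges of `G` is an eulerian map into {1, 2}: every edge cut has even
total weight. -/
def IsEulerianWeight {V : Type} [Fintype V] (G : SimpleGraph V) (w : Sym2 V → ℕ) : Prop :=
  (∀ e ∈ G.edgeSet, w e = 1 ∨ w e = 2) ∧ ∀ S : Finset V, Even (cutWeight G w S)

open Classical in
/-- `F` is a cycle `w`-cover: a finite family of cycles, repetitions allowed, such that every
edge `e` lies in exactly `w e` of them. -/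
def IsWeightedCover {V : Type} (G : SimpleGraph V) (w : Sym2 V → ℕ)
    (F : List (Σ u : V, G.Walk u u)) : Prop :=
  (∀ C ∈ F, C.2.IsCycle) ∧ ∀ e ∈ G.edgeSet, F.countP (fun C => decide (e ∈ C.2.edges)) = w e

/-- The cycle cover property: every eulerian (1,2)-weight has a cycle cover. -/
def CycleCoverProperty {V : Type} [Fintype V] (G : SimpleGraph V) : Prop :=
  ∀ w : Sym2 V → ℕ, IsEulerianWeight G w → ∃ F, IsWeightedCover G w F

/-- The three neighbours of each vertex of the truncated Petersen graph. -/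
def nb : Fin 12 → Fin 3 → Fin 12 :=
  ![![1, 10, 11], ![0, 2, 6], ![1, 3, 7], ![2, 4, 8], ![3, 10, 9], ![11, 7, 8], ![1, 9, 8],
    ![2, 5, 9], ![3, 6, 5], ![4, 7, 6], ![4, 0, 11], ![5, 10, 0]]

/-- The Petersen graph with one vertex replaced by a triangle. -/
def G : SimpleGraph (Fin 12) where
  Adj a b := ∃ i, nb a i = b
  symm := ⟨by decide⟩
  loopless := ⟨by decide⟩

instance : DecidableRel G.Adj := fun a b => inferInstanceAs (Decidable (∃ i, nb a i = b))

theorem adj_iff (x y : Fin 12) : G.Adj x y ↔ y = nb x 0 ∨ y = nb x 1 ∨ y = nb x 2 := by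
  revert x y; decide

theorem nb_ne : ∀ x, nb x 0 ≠ nb x 1 ∧ nb x 0 ≠ nb x 2 ∧ nb x 1 ≠ nb x 2 := by decide

/-- the six edges of weight two: a perfect matching -/
def heavy : Fin 12 → Fin 12 := ![10, 6, 7, 8, 9, 11, 1, 2, 3, 4, 0, 5]

/-- The weight: two on the perfect matching `heavy`, one elsewhere. -/
def wt : Sym2 (Fin 12) → ℕ := fun e => if ∃ x, e = s(x, heavy x) then 2 else 1

def root (a b : Fin 12) : Fin 12 :=
  if a ≠ 0 ∧ b ≠ 0 then 0 else if a ≠ 1 ∧ b ≠ 1 then 1 else 2

theorem root_ne : ∀ a b, root a b ≠ a ∧ root a b ≠ b := by decide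

theorem search_all : ∀ a b v : Fin 12, v ≠ a → v ≠ b → v ∈ search nb a b 11 [root a b] := by
  decide +kernel

theorem threeConnected : ThreeConnected G := by
  refine ⟨by simp, ?_⟩
  apply all_small G (by norm_num)
  intro a b S hS
  exact connected_of_search nb G (fun x i => ⟨i, rfl⟩) 11 root root_ne search_all a b S hS

theorem edge_cover_bound (F : List (Σ u : Fin 12, G.Walk u u))
    (hF : ∀ e ∈ G.edgeSet, ∃ C ∈ F, e ∈ C.2.edges) : 24 ≤ (F.map (fun C => C.2.length)).sum := by
  have := two_mul_card_le (G := G) (fun x => nb x 0) (fun x => nb x 1) (fun x => nb x 2)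
    (fun x => (nb_ne x).1) (fun x => (nb_ne x).2.1) (fun x => (nb_ne x).2.2) adj_iff F hF
  simpa using this

/-! The short cover and the short tour. -/

theorem a (x y : Fin 12) (h : ∃ i, nb x i = y) : G.Adj x y := h

def c1 : G.Walk 0 0 :=
  .cons (a 0 1 (by decide)) <| .cons (a 1 6 (by decide)) <| .cons (a 6 9 (by decide)) <|
  .cons (a 9 4 (by decide)) <| .cons (a 4 10 (by decide)) <| .cons (a 10 0 (by decide)) .nil

def c2 : G.Walk 0 0 :=
  .cons (a 0 1 (by decide)) <| .cons (a 1 2 (by decide)) <| .cons (a 2 7 (by decide)) <|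
  .cons (a 7 5 (by decide)) <| .cons (a 5 11 (by decide)) <| .cons (a 11 0 (by decide)) .nil

def c3 : G.Walk 2 2 :=
  .cons (a 2 3 (by decide)) <| .cons (a 3 8 (by decide)) <| .cons (a 8 6 (by decide)) <|
  .cons (a 6 9 (by decide)) <| .cons (a 9 7 (by decide)) <| .cons (a 7 2 (by decide)) .nil

def c4 : G.Walk 3 3 :=
  .cons (a 3 4 (by decide)) <| .cons (a 4 10 (by decide)) <| .cons (a 10 11 (by decide)) <|
  .cons (a 11 5 (by decide)) <| .cons (a 5 8 (by decide)) <| .cons (a 8 3 (by decide)) .nil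

def tour : G.Walk 0 0 :=
  .cons (a 0 1 (by decide)) <| .cons (a 1 2 (by decide)) <| .cons (a 2 7 (by decide)) <|
  .cons (a 7 2 (by decide)) <| .cons (a 2 3 (by decide)) <| .cons (a 3 8 (by decide)) <|
  .cons (a 8 3 (by decide)) <| .cons (a 3 4 (by decide)) <| .cons (a 4 10 (by decide)) <|
  .cons (a 10 4 (by decide)) <| .cons (a 4 9 (by decide)) <| .cons (a 9 6 (by decide)) <|
  .cons (a 6 9 (by decide)) <| .cons (a 9 7 (by decide)) <| .cons (a 7 5 (by decide)) <|
  .cons (a 5 11 (by decide)) <| .cons (a 11 5 (by decide)) <| .cons (a 5 8 (by decide)) <|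
  .cons (a 8 6 (by decide)) <| .cons (a 6 1 (by decide)) <| .cons (a 1 0 (by decide)) <|
  .cons (a 0 10 (by decide)) <| .cons (a 10 11 (by decide)) <| .cons (a 11 0 (by decide)) .nil

theorem c1_cycle : c1.IsCycle := by
  rw [SimpleGraph.Walk.isCycle_def, SimpleGraph.Walk.isTrail_def]
  exact ⟨by decide, by simp [c1], by decide⟩

theorem c2_cycle : c2.IsCycle := by
  rw [SimpleGraph.Walk.isCycle_def, SimpleGraph.Walk.isTrail_def]
  exact ⟨by decide, by simp [c2], by decide⟩

theorem c3_cycle : c3.IsCycle := by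
  rw [SimpleGraph.Walk.isCycle_def, SimpleGraph.Walk.isTrail_def]
  exact ⟨by decide, by simp [c3], by decide⟩

theorem c4_cycle : c4.IsCycle := by
  rw [SimpleGraph.Walk.isCycle_def, SimpleGraph.Walk.isTrail_def]
  exact ⟨by decide, by simp [c4], by decide⟩

theorem cover_edges : ∀ x : Fin 12, ∀ i, s(x, nb x i) ∈ c1.edges ∨ s(x, nb x i) ∈ c2.edges ∨
    s(x, nb x i) ∈ c3.edges ∨ s(x, nb x i) ∈ c4.edges := by decide

theorem tour_edges : ∀ x : Fin 12, ∀ i, s(x, nb x i) ∈ tour.edges := by decide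

theorem edge_form (e : Sym2 (Fin 12)) (he : e ∈ G.edgeSet) : ∃ x i, e = s(x, nb x i) := by
  induction e with
  | _ x y =>
    rw [SimpleGraph.mem_edgeSet] at he
    obtain ⟨i, hi⟩ := he
    exact ⟨x, i, by rw [hi]⟩

theorem scc_least : IsLeast (coverLengths G) 24 := by
  constructor
  · refine ⟨[⟨0, c1⟩, ⟨0, c2⟩, ⟨2, c3⟩, ⟨3, c4⟩], ⟨?_, ?_⟩, by decide⟩
    · intro C hC
      simp only [List.mem_cons, List.not_mem_nil, or_false] at hC
      rcases hC with rfl | rfl | rfl | rfl
      · exact c1_cycle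
      · exact c2_cycle
      · exact c3_cycle
      · exact c4_cycle
    · intro e he
      obtain ⟨x, i, rfl⟩ := edge_form e he
      rcases cover_edges x i with h | h | h | h
      · exact ⟨⟨0, c1⟩, by simp, h⟩
      · exact ⟨⟨0, c2⟩, by simp, h⟩
      · exact ⟨⟨2, c3⟩, by simp, h⟩
      · exact ⟨⟨3, c4⟩, by simp, h⟩
  · rintro n ⟨F, hF, rfl⟩
    exact edge_cover_bound F hF.2

theorem cpp_least : IsLeast (tourLengths G) 24 := by
  constructor
  · refine ⟨0, tour, ?_, by decide⟩
    intro e he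
    obtain ⟨x, i, rfl⟩ := edge_form e he
    exact tour_edges x i
  · rintro n ⟨u, p, hp, rfl⟩
    have := edge_cover_bound [⟨u, p⟩] (fun e he => ⟨⟨u, p⟩, by simp, hp e he⟩)
    simpa using this

/-! The weight is eulerian. -/

theorem even_inner (f : Fin 12 → Fin 12 → ℕ) (hs : ∀ x y, f x y = f y x) (h0 : ∀ x, f x x = 0)
    (S : Finset (Fin 12)) : Even (∑ x ∈ S, ∑ y ∈ S, f x y) := by
  induction S using Finset.induction_on with
  | empty => simp
  | insert b S hb ih =>
    rw [Finset.sum_insert hb, Finset.sum_insert hb, h0]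
    have : ∑ x ∈ S, ∑ y ∈ insert b S, f x y = ∑ x ∈ S, f x b + ∑ x ∈ S, ∑ y ∈ S, f x y := by
      rw [← Finset.sum_add_distrib]
      apply Finset.sum_congr rfl
      intro x _
      rw [Finset.sum_insert hb]
    rw [this]
    have h2 : ∑ x ∈ S, f x b = ∑ x ∈ S, f b x := Finset.sum_congr rfl (fun x _ => hs x b)
    rw [h2, zero_add, ← add_assoc]
    exact Even.add (by exact ⟨_, rfl⟩) ih

def g (x y : Fin 12) : ℕ := if G.Adj x y then wt s(x, y) else 0

theorem g_symm : ∀ x y, g x y = g y x := by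
  intro x y
  unfold g
  by_cases h : G.Adj x y
  · simp [h, h.symm, Sym2.eq_swap]
  · have h' : ¬ G.Adj y x := fun h2 => h h2.symm
    simp [h, h']

theorem g_diag : ∀ x, g x x = 0 := by
  intro x; unfold g; simp

theorem g_star : ∀ x, ∑ y, g x y = 4 := by decide +kernel

theorem eulerian : IsEulerianWeight G wt := by
  constructor
  · intro e _
    unfold wt
    split_ifs
    · exact Or.inr rfl
    · exact Or.inl rfl
  · intro S
    have h1 : cutWeight G wt S = ∑ x ∈ S, ∑ y ∈ Sᶜ, g x y := by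
      unfold cutWeight g
      apply Finset.sum_congr rfl
      intro x _
      apply Finset.sum_congr (by ext; simp)
      intro y _
      congr
    have h2 : ∑ x ∈ S, ∑ y, g x y = ∑ x ∈ S, ∑ y ∈ S, g x y + ∑ x ∈ S, ∑ y ∈ Sᶜ, g x y := by
      rw [← Finset.sum_add_distrib]
      apply Finset.sum_congr rfl
      intro x _
      rw [Finset.sum_add_sum_compl]
    have h3 : ∑ x ∈ S, ∑ y, g x y = 4 * S.card := by
      rw [Finset.sum_congr rfl (fun x _ => g_star x)]
      simp [mul_comm]
    have h4 := even_inner g g_symm g_diag S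
    rw [h1]
    have h5 : Even (∑ x ∈ S, ∑ y ∈ S, g x y + ∑ x ∈ S, ∑ y ∈ Sᶜ, g x y) := by
      rw [← h2, h3]
      exact ⟨2 * S.card, by ring⟩
    exact (Nat.even_add.1 h5).1 h4

/-! No cover of the weight. -/

/-- usage of the edge xy by the cycle C -/
def us (C : Σ u : Fin 12, G.Walk u u) (x y : Fin 12) : ℕ := use C.2 s(x, y)

theorem us_symm (C : Σ u : Fin 12, G.Walk u u) (x y : Fin 12) : us C x y = us C y x := by
  unfold us; rw [Sym2.eq_swap]

theorem us_le (C : Σ u : Fin 12, G.Walk u u) (hC : C.2.IsCycle) (x y : Fin 12) : us C x y ≤ 1 := by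
  unfold us
  rw [use_trail C.2 hC.isTrail]
  split_ifs <;> omega

theorem us_parity (C : Σ u : Fin 12, G.Walk u u) (x : Fin 12) :
    (us C x (nb x 0) + us C x (nb x 1) + us C x (nb x 2)) % 2 = 0 := by
  have h := star C.2 x (nb x 0) (nb x 1) (nb x 2) (nb_ne x).1 (nb_ne x).2.1 (nb_ne x).2.2
    (fun y hy => (adj_iff x y).1 hy)
  rw [← out_eq_inn] at h
  unfold us
  omega

theorem us_sum (F : List (Σ u : Fin 12, G.Walk u u)) (hF : IsWeightedCover G wt F) (x y : Fin 12)
    (h : G.Adj x y) : (F.map (fun C => us C x y)).sum = wt s(x, y) := by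
  rw [← hF.2 s(x, y) (by simpa using h)]
  have hc := hF.1
  clear hF
  induction F with
  | nil => simp
  | cons C F ih =>
    rw [List.map_cons, List.sum_cons, List.countP_cons, ih (fun D hD => hc D (by simp [hD]))]
    have h1 : us C x y = if s(x, y) ∈ C.2.edges then 1 else 0 :=
      use_trail C.2 (hc C (by simp)).isTrail _
    rw [h1, add_comm]
    simp

set_option maxRecDepth 100000 in
theorem final_check : ∀ o0 o1 o2 o3 o4 i0 i1 i2 i3 i4 : Bool,
    ∀ m0 m1 m2 m3 m4 : Bool,
    o4.toNat + o0.toNat = m0.toNat → o0.toNat + o1.toNat = m1.toNat →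
    o1.toNat + o2.toNat = m2.toNat → o2.toNat + o3.toNat = m3.toNat →
    o3.toNat + o4.toNat = m4.toNat → i0.toNat + i4.toNat = m0.toNat →
    i0.toNat + i1.toNat = m2.toNat → i1.toNat + i2.toNat = m4.toNat →
    i2.toNat + i3.toNat = m1.toNat → i3.toNat + i4.toNat = m3.toNat →
    (m0.toNat + m1.toNat + m2.toNat + m3.toNat + m4.toNat) % 4 = 0 := by
  decide +kernel

theorem tight (F : List (Σ u : Fin 12, G.Walk u u)) (hF : IsWeightedCover G wt F)
    (x0 y0 x1 y1 x2 y2 : Fin 12) (h0 : G.Adj x0 y0) (h1 : G.Adj x1 y1) (h2 : G.Adj x2 y2)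
    (w0 : wt s(x0, y0) = 1) (w1 : wt s(x1, y1) = 1) (w2 : wt s(x2, y2) = 2)
    (par : ∀ C : Σ u : Fin 12, G.Walk u u, (us C x0 y0 + us C x1 y1 + us C x2 y2) % 2 = 0) :
    ∀ C ∈ F, us C x0 y0 + us C x1 y1 = us C x2 y2 := by
  have hle : ∀ C ∈ F, us C x2 y2 ≤ us C x0 y0 + us C x1 y1 := by
    intro C hC
    have := par C
    have := us_le C (hF.1 C hC) x0 y0
    have := us_le C (hF.1 C hC) x1 y1
    have := us_le C (hF.1 C hC) x2 y2
    omega
  have hs : (F.map (fun C => us C x2 y2)).sum =
      (F.map (fun C => us C x0 y0 + us C x1 y1)).sum := by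
    rw [sum_map_add, us_sum F hF _ _ h0, us_sum F hF _ _ h1, us_sum F hF _ _ h2, w0, w1, w2]
  intro C hC
  exact (eq_of_sum_list_eq F _ _ hle hs C hC).symm

theorem par_T (C : Σ u : Fin 12, G.Walk u u) :
    (us C 0 1 + us C 10 4 + us C 11 5) % 2 = 0 := by
  have a0 := us_parity C 0
  have a1 := us_parity C 10
  have a2 := us_parity C 11
  simp only [nb, Matrix.cons_val] at a0 a1 a2
  have b0 := us_symm C 0 10
  have b1 := us_symm C 0 11
  have b2 := us_symm C 10 11
  omega

theorem to_bool (k : ℕ) (h : k ≤ 1) : ∃ b : Bool, b.toNat = k := by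
  interval_cases k
  · exact ⟨false, rfl⟩
  · exact ⟨true, rfl⟩

theorem sum_mod {α : Type} (F : List α) (f : α → ℕ) (h : ∀ c ∈ F, f c % 4 = 0) :
    (F.map f).sum % 4 = 0 := by
  induction F with
  | nil => simp
  | cons c F ih =>
    rw [List.map_cons, List.sum_cons]
    have h1 := h c (by simp)
    have h2 := ih (fun d hd => h d (by simp [hd]))
    omega

theorem no_cover (F : List (Σ u : Fin 12, G.Walk u u)) : ¬ IsWeightedCover G wt F := by
  intro hF
  have t0 := tight F hF 10 4 0 1 11 5 (by decide) (by decide) (by decide) (by decide) (by decide)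
    (by decide) (fun C => by have := par_T C; omega)
  have vtx : ∀ (x : Fin 12) (y0 y1 y2 : Fin 12) , G.Adj x y0 → G.Adj x y1 → G.Adj x y2 →
      wt s(x, y0) = 1 → wt s(x, y1) = 1 → wt s(x, y2) = 2 →
      (∀ C : Σ u : Fin 12, G.Walk u u, (us C x y0 + us C x y1 + us C x y2) % 2 = 0) →
      ∀ C ∈ F, us C x y0 + us C x y1 = us C x y2 := fun x y0 y1 y2 h0 h1 h2 w0 w1 w2 par =>
    tight F hF x y0 x y1 x y2 h0 h1 h2 w0 w1 w2 par
  have t1 := vtx 1 0 2 6 (by decide) (by decide) (by decide) (by decide) (by decide) (by decide)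
    (fun C => us_parity C 1)
  have t2 := vtx 2 1 3 7 (by decide) (by decide) (by decide) (by decide) (by decide) (by decide)
    (fun C => us_parity C 2)
  have t3 := vtx 3 2 4 8 (by decide) (by decide) (by decide) (by decide) (by decide) (by decide)
    (fun C => us_parity C 3)
  have t4 := vtx 4 3 10 9 (by decide) (by decide) (by decide) (by decide) (by decide) (by decide)
    (fun C => us_parity C 4)
  have t5 := vtx 5 7 8 11 (by decide) (by decide) (by decide) (by decide) (by decide) (by decide)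
    (fun C => by
      have h : (us C 5 11 + us C 5 7 + us C 5 8) % 2 = 0 := us_parity C 5
      omega)
  have t7 := vtx 7 5 9 2 (by decide) (by decide) (by decide) (by decide) (by decide) (by decide)
    (fun C => by
      have h : (us C 7 2 + us C 7 5 + us C 7 9) % 2 = 0 := us_parity C 7
      omega)
  have t9 := vtx 9 7 6 4 (by decide) (by decide) (by decide) (by decide) (by decide) (by decide)
    (fun C => by
      have h : (us C 9 4 + us C 9 7 + us C 9 6) % 2 = 0 := us_parity C 9
      omega)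
  have t6 := vtx 6 9 8 1 (by decide) (by decide) (by decide) (by decide) (by decide) (by decide)
    (fun C => by
      have h : (us C 6 1 + us C 6 9 + us C 6 8) % 2 = 0 := us_parity C 6
      omega)
  have t8 := vtx 8 6 5 3 (by decide) (by decide) (by decide) (by decide) (by decide) (by decide)
    (fun C => by
      have h : (us C 8 3 + us C 8 6 + us C 8 5) % 2 = 0 := us_parity C 8
      omega)
  have key : ∀ C ∈ F, (us C 11 5 + us C 1 6 + us C 2 7 + us C 3 8 + us C 4 9) % 4 = 0 := by
    intro C hC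
    have hb : ∀ x y, ∃ b : Bool, b.toNat = us C x y := fun x y =>
      to_bool _ (us_le C (hF.1 C hC) x y)
    obtain ⟨o0, e0⟩ := hb 0 1
    obtain ⟨o1, e1⟩ := hb 1 2
    obtain ⟨o2, e2⟩ := hb 2 3
    obtain ⟨o3, e3⟩ := hb 3 4
    obtain ⟨o4, e4⟩ := hb 4 10
    obtain ⟨i0, f0⟩ := hb 5 7
    obtain ⟨i1, f1⟩ := hb 7 9
    obtain ⟨i2, f2⟩ := hb 9 6
    obtain ⟨i3, f3⟩ := hb 6 8
    obtain ⟨i4, f4⟩ := hb 8 5
    obtain ⟨m0, g0⟩ := hb 11 5
    obtain ⟨m1, g1⟩ := hb 1 6
    obtain ⟨m2, g2⟩ := hb 2 7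
    obtain ⟨m3, g3⟩ := hb 3 8
    obtain ⟨m4, g4⟩ := hb 4 9
    have s0 := t0 C hC
    have s1 := t1 C hC
    have s2 := t2 C hC
    have s3 := t3 C hC
    have s4 := t4 C hC
    have s5 := t5 C hC
    have s6 := t6 C hC
    have s7 := t7 C hC
    have s8 := t8 C hC
    have s9 := t9 C hC
    rw [us_symm C 10 4] at s0
    rw [us_symm C 1 0] at s1
    rw [us_symm C 2 1] at s2
    rw [us_symm C 3 2] at s3
    rw [us_symm C 4 3] at s4
    rw [us_symm C 5 8, us_symm C 5 11] at s5
    rw [us_symm C 6 9, us_symm C 6 1] at s6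
    rw [us_symm C 7 5, us_symm C 7 2] at s7
    rw [us_symm C 8 6, us_symm C 8 3] at s8
    rw [us_symm C 9 7, us_symm C 9 4] at s9
    rw [← g0, ← g1, ← g2, ← g3, ← g4]
    apply final_check o0 o1 o2 o3 o4 i0 i1 i2 i3 i4 m0 m1 m2 m3 m4 <;> omega
  have hsum := sum_mod F _ key
  rw [sum_map_add, sum_map_add, sum_map_add, sum_map_add, us_sum F hF _ _ (by decide),
    us_sum F hF _ _ (by decide), us_sum F hF _ _ (by decide), us_sum F hF _ _ (by decide),
    us_sum F hF _ _ (by decide)] at hsum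
  revert hsum
  decide

/-- Q1 is answered in the negative. There is a 3-connected (cubic, simple) graph on 12 vertices,
the Petersen graph with one vertex replaced by a triangle, whose shortest cycle covers and
shortest postman tours have the same length 24, and which does not have the cycle cover
property. -/
theorem result : ∃ G : SimpleGraph (Fin 12),
    ThreeConnected G ∧
    IsLeast (coverLengths G) 24 ∧ IsLeast (tourLengths G) 24 ∧ SCC G = CPP G ∧
    (∃ w : Sym2 (Fin 12) → ℕ, IsEulerianWeight G w ∧ ¬ ∃ F, IsWeightedCover G w F) ∧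
    ¬ CycleCoverProperty G := by
  refine ⟨G, threeConnected, scc_least, cpp_least, ?_, ⟨wt, eulerian, ?_⟩, ?_⟩
  · unfold SCC CPP
    rw [scc_least.csInf_eq, cpp_least.csInf_eq]
  · rintro ⟨F, hF⟩
    exact no_cover F hF
  · intro h
    obtain ⟨F, hF⟩ := h wt eulerian
    exact no_cover F hF

end Pool.Agent.Results.MP_b9ebd9_co.TruncatedPetersen
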